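import Pool.Agent.H501.CM.Exp

/-!
# MP_ce8f6c_nt, Q1: the split-prime supercongruences for `E_k / (j - j(α_D))` hold

Dictionary with the problem file.

* `klein`: Klein's invariant `j = E₄³ / Δ` on the upper half-plane (Mathlib's normalised `E₄` and
  discriminant form `Δ`), `j = q⁻¹ + 744 + ⋯`;
* `sqrtD D`: the square root `i √|D|` of the negative discriminant `D`;
* `InOrder D z`: `z` lies in the quadratic order `𝒪_D = ℤ + ℤ (D + √D)/2` inside `ℂ`;
* `IsCM D α`: `α` is a root of a primitive `a X² + b X + c` over `ℤ` with `b² - 4ac = D`;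
* `SplitsIn D p`: the Kronecker symbol `(D/p)` is `1`;
* `IsExpansion k J A`: `E_k / (j - J) = ∑_{n ≥ 1} A(n) qⁿ` near `i∞`, with integers `A(n)`.

The theorem treats every CM point `α` of discriminant `D < 0` (`D ≠ -3, -4`) whose singular modulus
`j(α) = J` is a rational integer; as recalled in the problem file this holds for all `D` with
`h(D) = 1`.
-/

set_option autoImplicit false

noncomputable section

open UpperHalfPlane hiding I
open ModularForm Complex EisensteinSeries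

namespace Pool.Agent.Results.MP_ce8f6c_nt.SplitPrime

/-- Klein's invariant `j = E₄³ / Δ` -/
def klein (τ : ℍ) : ℂ := E₄ τ ^ 3 / ModularForm.discriminant τ

/-- `√D = i √|D|`, for `D < 0` -/
def sqrtD (D : ℤ) : ℂ := I * (Real.sqrt (-(D : ℝ)) : ℝ)

/-- `z` lies in the order `𝒪_D = ℤ + ℤ (D + √D)/2` -/
def InOrder (D : ℤ) (z : ℂ) : Prop := ∃ x y : ℤ, z = x + y * ((D + sqrtD D) / 2)

/-- `α` is a CM point of discriminant `D` -/
def IsCM (D : ℤ) (α : ℍ) : Prop :=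
  ∃ a b c : ℤ, Int.gcd a (Int.gcd b c) = 1 ∧ b ^ 2 - 4 * a * c = D ∧
    (a : ℂ) * (α : ℂ) ^ 2 + b * α + c = 0

/-- the Kronecker symbol `(D/p)` equals `1` -/
def SplitsIn (D : ℤ) (p : ℕ) : Prop := if p = 2 then D % 8 = 1 else jacobiSym D p = 1

/-- `E_k / (j - J) = ∑_{n ≥ 1} A(n) qⁿ` for `im τ` large, `q = e^{2πiτ}` -/
def IsExpansion (k : ℕ) (hk : 3 ≤ k) (J : ℤ) (A : ℕ → ℤ) : Prop :=
  A 0 = 0 ∧ ∃ Y : ℝ, ∀ τ : ℍ, Y < τ.im →
    HasSum (fun n : ℕ => (A n : ℂ) * Complex.exp (2 * Real.pi * I * τ) ^ n)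
      (E hk τ / (klein τ - J))

open Pool.Agent.H501.CM in
/-- The expansion of `E_k / (j - J)` exists and is unique, and for `J = j(α)` the value at a CM point
`α` of discriminant `D` the coefficients satisfy the two congruences of Q1, for every prime `p` that
splits in `𝒪_D` and divides neither `J` nor `J - 1728`, every `π ∈ 𝒪_D` of norm `p`, and all
`n, l ≥ 1`. -/
theorem result (k : ℕ) (hk3 : 3 ≤ k) (hk : k = 4 ∨ k = 6 ∨ k = 8 ∨ k = 10 ∨ k = 14) (D : ℤ)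
    (hD : D < 0) (_hD3 : D ≠ -3) (_hD4 : D ≠ -4) (α : ℍ) (hα : IsCM D α) (J : ℤ)
    (hJ : klein α = J) :
    (∃! A : ℕ → ℤ, IsExpansion k hk3 J A) ∧
    ∀ A : ℕ → ℤ, IsExpansion k hk3 J A →
      ∀ p : ℕ, p.Prime → SplitsIn D p → ¬ (p : ℤ) ∣ J → ¬ (p : ℤ) ∣ J - 1728 →
        ∀ π : ℂ, InOrder D π → π * (starRingEnd ℂ) π = p → ∀ n l : ℕ, 1 ≤ n → 1 ≤ l →
          (∃ β : ℂ, InOrder D β ∧ (A (n * p ^ l) : ℂ) - π ^ (k - 2) * A (n * p ^ (l - 1)) =
            (starRingEnd ℂ) π ^ ((k - 1) * l) * β) ∧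
          (∃ β : ℂ, InOrder D β ∧
            (A (n * p ^ l) : ℂ) - (starRingEnd ℂ) π ^ (k - 2) * A (n * p ^ (l - 1)) =
              π ^ ((k - 1) * l) * β) := by
  obtain ⟨a, b, a', b', ha, hb, hab, hw, -, hE⟩ := five k hk
  have hE := hE hk3
  refine ⟨?_, ?_⟩
  · obtain ⟨A, Y, h0, hA⟩ := exists_expansion hk3 hE J
    refine ⟨A, ⟨h0, Y, hA⟩, fun B hB => ?_⟩
    obtain ⟨-, Y', hB⟩ := hB
    exact expansion_unique hB hA
  intro A hA p hp hDp hJ0 hJ1 π hπ hππ n l hn hl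
  have : Fact p.Prime := ⟨hp⟩
  obtain ⟨-, Y, hA⟩ := hA
  have hcoef := fun m hm => coeff_eq ha hb hk3 hE J A Y hA m hm
  obtain ⟨A₀, B₀, C₀, -, hABC, hα0⟩ := hα
  obtain ⟨u, v, hπuv⟩ := hπ
  -- `p` does not divide `D`
  have hpD : ¬ (p : ℤ) ∣ D := by
    intro h
    unfold SplitsIn at hDp
    split_ifs at hDp with h2
    · subst h2
      have h3 : (2 : ℤ) ∣ D := by exact_mod_cast h
      omega
    · have h3 : jacobiSym D p = 0 := by
        rw [jacobiSym.eq_zero_iff_not_coprime]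
        intro h4
        have h5 : (p : ℤ) ∣ (Int.gcd D p : ℤ) := Int.dvd_coe_gcd h (dvd_refl _)
        rw [h4] at h5
        have h6 : p ∣ 1 := by exact_mod_cast h5
        exact hp.one_lt.ne' (Nat.dvd_one.1 h6)
      rw [h3] at hDp
      exact zero_ne_one hDp
  obtain ⟨κ, hκ⟩ : ∃ κ : ℤ, 4 * κ = D ^ 2 - D := by
    rcases Int.emod_two_eq_zero_or_one B₀ with h | h
    · obtain ⟨r, rfl⟩ := Int.dvd_of_emod_eq_zero h
      exact ⟨(r ^ 2 - A₀ * C₀) * (D - 1), by rw [← hABC]; ring⟩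
    · obtain ⟨r, rfl⟩ : ∃ r, B₀ = 2 * r + 1 := ⟨B₀ / 2, by omega⟩
      exact ⟨(r ^ 2 + r - A₀ * C₀) * D, by rw [← hABC]; ring⟩
  have hR2 : sqrtD D ^ 2 = D := by
    unfold sqrtD
    rw [mul_pow, I_sq, ← Complex.ofReal_pow, Real.sq_sqrt (by
      have : (D : ℝ) < 0 := by exact_mod_cast hD
      linarith)]
    push_cast
    ring
  have hABCc : (B₀ : ℂ) ^ 2 - 4 * A₀ * C₀ = D := by exact_mod_cast hABC
  obtain ⟨s, hs, hsR⟩ : ∃ s : ℤ, s ^ 2 = 1 ∧ sqrtD D = s * (2 * A₀ * α + B₀) := by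
    have h1 : (sqrtD D - (2 * A₀ * α + B₀)) * (sqrtD D + (2 * A₀ * α + B₀)) = 0 := by
      linear_combination hR2 - 4 * (A₀ : ℂ) * hα0 - hABCc
    rcases mul_eq_zero.1 h1 with h | h
    · exact ⟨1, by norm_num, by push_cast; linear_combination h⟩
    · exact ⟨-1, by norm_num, by push_cast; linear_combination h⟩
  have halgR : IsAlgebraic ℚ (sqrtD D) := by
    have h1 : IsAlgebraic ℚ (sqrtD D ^ 2) := by
      rw [hR2]
      have h := isAlgebraic_algebraMap (R := ℚ) (A := ℂ) (D : ℚ)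
      have h2 : (algebraMap ℚ ℂ) (D : ℚ) = (D : ℂ) := by simp
      rwa [h2] at h
    exact h1.of_pow (by norm_num)
  set T : Qb := lf (sqrtD D) with hTdef
  have hTc : (T : ℂ) = sqrtD D := lf_coe halgR
  have hT : (T : ℂ) = s * (2 * A₀ * α + B₀) := by rw [hTc, hsR]
  set ω : Qb := (D + T) / 2 with hω
  set ω' : Qb := (D - T) / 2 with hω'
  have h1 : 2 * ω = D + T := by rw [hω]; ring
  have h2 : 2 * ω' = D - T := by rw [hω']; ring
  have hωc : (ω : ℂ) = (D + sqrtD D) / 2 := by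
    have h3 := congrArg (algebraMap Qb ℂ) h1
    rw [map_mul, map_add, map_ofNat, map_intCast] at h3
    change (2 : ℂ) * (ω : ℂ) = D + (T : ℂ) at h3
    rw [hTc] at h3
    linear_combination h3 / 2
  have hωc' : (ω' : ℂ) = (D - sqrtD D) / 2 := by
    have h3 := congrArg (algebraMap Qb ℂ) h2
    rw [map_mul, map_sub, map_ofNat, map_intCast] at h3
    change (2 : ℂ) * (ω' : ℂ) = D - (T : ℂ) at h3
    rw [hTc] at h3
    linear_combination h3 / 2
  have hconjR : (starRingEnd ℂ) (sqrtD D) = -sqrtD D := by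
    unfold sqrtD
    rw [map_mul, Complex.conj_I, Complex.conj_ofReal]
    ring
  have hπc : π = u + v * (ω : ℂ) := by rw [hπuv, hωc]
  have hπc' : (starRingEnd ℂ) π = u + v * (ω' : ℂ) := by
    rw [hπuv, hωc', map_add, map_mul, map_div₀, map_add, hconjR, map_intCast, map_intCast,
      map_intCast, map_ofNat]
    ring
  have hκc : (4 : ℂ) * κ = D ^ 2 - D := by exact_mod_cast hκ
  have hnorm : u ^ 2 + u * v * D + v ^ 2 * κ = p := by
    have h3 : (u : ℂ) ^ 2 + u * v * D + v ^ 2 * κ = p := by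
      rw [← hππ, hπc', hπc, hωc, hωc']
      linear_combination ((v : ℂ) ^ 2 / 4) * hκc + ((v : ℂ) ^ 2 / 4) * hR2
    exact_mod_cast h3
  obtain ⟨t, rfl⟩ : ∃ t, l = t + 1 := ⟨l - 1, by omega⟩
  have hm : 0 < n * p ^ t := Nat.mul_pos hn (pow_pos hp.pos t)
  have ht : p ^ t ∣ n * p ^ t := Dvd.intro_left n rfl
  -- the embedding
  obtain ⟨σ⟩ : Nonempty (Qb →+* PadicAlgCl p) := by
    have h3 : Algebra.IsAlgebraic ℚ (algebraicClosure ℚ ℂ) := algebraicClosure.isAlgebraic ℚ ℂ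
    exact ⟨((IsAlgClosed.lift : (algebraicClosure ℚ ℂ) →ₐ[ℚ] PadicAlgCl p) : _ →+* PadicAlgCl p)⟩
  have hT2 := T_sq hα0 hABC hs hT
  have hωq := om_sq hκ hT2 h1
  have hωq' : ω' ^ 2 = D * ω' - κ := om_sq (T := -T) hκ (by rw [neg_sq, hT2]) (by rw [h2]; ring)
  have hd : ω - ω' = T := by rw [hω, hω']; ring
  have hprQ : (u + v * ω) * (u + v * ω') = (p : Qb) := by
    apply Qb_ext
    push_cast
    rw [← hπc, ← hπc', hππ]
  have key : ∃ X Y : ℤ, ((Pm a b (p * (n * p ^ t))).eval J : ℤ) -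
        (u + v * ω) ^ (k - 2) * ((Pm a b (n * p ^ t)).eval J : ℤ) =
        (u + v * ω') ^ ((k - 2 + 1) * (t + 1)) * ((X : Qb) + Y * ω) ∧
      ((Pm a b (p * (n * p ^ t))).eval J : ℤ) -
        (u + v * ω') ^ (k - 2) * ((Pm a b (n * p ^ t)).eval J : ℤ) =
        (u + v * ω) ^ ((k - 2 + 1) * (t + 1)) * ((X : Qb) + Y * ω') := by
    rcases unit_or σ hT2 hpD hd hωq hωq' u v hprQ with hu | hu
    · exact half σ hα0 hABC hκ hJ hJ0 hJ1 hpD hab hw hs hT h1 h2 u v hnorm hu t _ hm ht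
    · obtain ⟨X, Y, e1, e2⟩ := half σ hα0 hABC hκ hJ hJ0 hJ1 hpD hab hw (s := -s)
        (by rw [neg_sq, hs]) (T := -T) (ω := ω') (ω' := ω) (by
          rw [show ((-T : Qb) : ℂ) = -(T : ℂ) from rfl, hT]
          push_cast
          ring) (by rw [h2]; ring) (by rw [h1]; ring) u v hnorm hu t _ hm ht
      exact ⟨X, Y, e2, e1⟩
  obtain ⟨X, Y, e1, e2⟩ := key
  have ek : (k - 2 + 1) * (t + 1) = (k - 1) * (t + 1) := by
    congr 1
    omega
  rw [ek] at e1 e2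
  have em : n * p ^ (t + 1) = p * (n * p ^ t) := by rw [pow_succ]; ring
  have em' : n * p ^ (t + 1 - 1) = n * p ^ t := rfl
  have hA1 := hcoef (p * (n * p ^ t)) (Nat.mul_pos hp.pos hm)
  have hA2 := hcoef (n * p ^ t) hm
  rw [em, em', hA1, hA2]
  refine ⟨⟨X + Y * ω, ⟨X, Y, by rw [hωc]⟩, ?_⟩, ⟨X + Y * ω', ?_, ?_⟩⟩
  · have h3 := congrArg (algebraMap Qb ℂ) e1
    simp only [map_sub, map_mul, map_pow, map_add, map_intCast] at h3
    rw [hπc', hπc]
    exact h3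
  · refine ⟨X + Y * D, -Y, ?_⟩
    rw [hωc']
    push_cast
    ring
  · have h3 := congrArg (algebraMap Qb ℂ) e2
    simp only [map_sub, map_mul, map_pow, map_add, map_intCast] at h3
    rw [hπc', hπc]
    exact h3

end Pool.Agent.Results.MP_ce8f6c_nt.SplitPrime
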